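import Pool.Agent.Y675.LN.Stm

/-!
# Project LN, task BOX: counting pairs of a box in residue classes
-/

set_option autoImplicit false

open Finset

namespace Pool.Agent.Y333.LN

open Pool.Agent.Y675.LN

theorem card_class (x H M v : ℕ) (hM : 0 < M) :
    ((Ioc x (x + H * M)).filter (· ≡ v [MOD M])).card = H := by
  have h := Nat.Ioc_filter_modEq_card x (x + H * M) hM v
  have hM' : (M : ℚ) ≠ 0 := by exact_mod_cast hM.ne'
  have e : (((x + H * M : ℕ) : ℚ) - v) / (M : ℚ) = ((x : ℚ) - v) / M + ((H : ℤ) : ℚ) := by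
    push_cast
    field_simp
    ring
  rw [e, Int.floor_add_intCast, add_sub_cancel_left, max_eq_left (by positivity)] at h
  exact_mod_cast h

theorem card_class_le (x H M d v : ℕ) (hM : 0 < M) (hd : 0 < d) :
    d * ((Ioc x (x + H * M)).filter (· ≡ v [MOD M * d])).card ≤ H + d := by
  have h := Nat.Ioc_filter_modEq_card x (x + H * M) (Nat.mul_pos hM hd) v
  generalize ((Ioc x (x + H * M)).filter (· ≡ v [MOD M * d])).card = c at *
  have hM' : (0 : ℚ) < M := by exact_mod_cast hM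
  have hd' : (0 : ℚ) < d := by exact_mod_cast hd
  have h1 : (c : ℚ) ≤ H / d + 1 := by
    have h2 : ((c : ℤ) : ℚ) = c := by push_cast; rfl
    rw [← h2, h, Int.cast_max]
    refine max_le ?_ ?_
    · have a1 := Int.floor_le ((((x + H * M : ℕ) : ℚ) - v) / ((M * d : ℕ) : ℚ))
      have a2 := Int.lt_floor_add_one (((x : ℚ) - v) / ((M * d : ℕ) : ℚ))
      have e : (((x + H * M : ℕ) : ℚ) - v) / ((M * d : ℕ) : ℚ) =
          ((x : ℚ) - v) / ((M * d : ℕ) : ℚ) + H / d := by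
        push_cast
        field_simp
        ring
      rw [e] at a1
      rw [e]
      push_cast at *
      linarith
    · push_cast
      positivity
  have h3 : ((d * c : ℕ) : ℚ) ≤ ((H + d : ℕ) : ℚ) := by
    push_cast
    calc (d : ℚ) * c ≤ d * (H / d + 1) := mul_le_mul_of_nonneg_left h1 hd'.le
      _ = H + d := by field_simp
  exact_mod_cast h3

theorem cast_eq_iff {M : ℕ} [NeZero M] (a : ℕ) (c : ZMod M) :
    (a : ZMod M) = c ↔ a ≡ c.val [MOD M] := by
  rw [← ZMod.natCast_eq_natCast_iff, ZMod.natCast_zmod_val]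

/-- the box as a finite set -/
def bx (k M J : ℕ) : Finset (ℕ × ℕ) :=
  Ioc (3 * k * J * M) (3 * k * J * M + 3 * k * J * M) ×ˢ Ioc 0 (0 + J * M)

theorem mem_bx {k M J : ℕ} {x : ℕ × ℕ} : x ∈ bx k M J ↔
    3 * k * J * M < x.1 ∧ x.1 ≤ 2 * (3 * k * J * M) ∧ 0 < x.2 ∧ x.2 ≤ J * M := by
  unfold bx
  rw [mem_product, mem_Ioc, mem_Ioc, zero_add, two_mul, and_assoc]

/-- **Task BOX, first part.** -/
theorem box : S_BOX := by
  intro k A M J hM
  have : NeZero M := ⟨hM.ne'⟩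
  classical
  have hS : (S k A M).Finite := Set.toFinite _
  have hP : Pr k A M J = ((bx k M J).filter
      fun x => ((x.1 : ZMod M), (x.2 : ZMod M)) ∈ S k A M : Finset (ℕ × ℕ)) := by
    ext x
    rw [Finset.mem_coe, mem_filter, mem_bx]
    unfold Pr
    constructor
    · rintro ⟨a, b, c, d, e⟩
      exact ⟨⟨a, b, c, d⟩, e⟩
    · rintro ⟨⟨a, b, c, d⟩, e⟩
      exact ⟨a, b, c, d, e⟩
  rw [hP, Set.ncard_coe_finset]
  rw [Finset.card_eq_sum_card_fiberwise
    (f := fun x : ℕ × ℕ => ((x.1 : ZMod M), (x.2 : ZMod M))) (t := hS.toFinset)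
    (fun x hx => by
      have hx' := (mem_filter.1 (Finset.mem_coe.1 hx)).2
      exact Finset.mem_coe.2 (hS.mem_toFinset.2 hx'))]
  have h1 : ∀ c ∈ hS.toFinset, (((bx k M J).filter
      fun x => ((x.1 : ZMod M), (x.2 : ZMod M)) ∈ S k A M).filter
        fun x => ((x.1 : ZMod M), (x.2 : ZMod M)) = c).card = 3 * k * J * J := by
    intro c hc
    have hc' := hS.mem_toFinset.1 hc
    have h2 : (((bx k M J).filter
      fun x => ((x.1 : ZMod M), (x.2 : ZMod M)) ∈ S k A M).filter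
        fun x => ((x.1 : ZMod M), (x.2 : ZMod M)) = c) =
        ((Ioc (3 * k * J * M) (3 * k * J * M + 3 * k * J * M)).filter (· ≡ c.1.val [MOD M])) ×ˢ
        ((Ioc 0 (0 + J * M)).filter (· ≡ c.2.val [MOD M])) := by
      ext x
      rw [mem_filter, mem_filter, mem_product, mem_filter, mem_filter]
      unfold bx
      rw [mem_product]
      constructor
      · rintro ⟨⟨⟨a, b⟩, _⟩, h⟩
        refine ⟨⟨a, ?_⟩, b, ?_⟩
        · rw [← cast_eq_iff, ← h]
        · rw [← cast_eq_iff, ← h]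
      · rintro ⟨⟨a, b⟩, e, f⟩
        have h : ((x.1 : ZMod M), (x.2 : ZMod M)) = c :=
          Prod.ext ((cast_eq_iff _ _).2 b) ((cast_eq_iff _ _).2 f)
        refine ⟨⟨⟨a, e⟩, ?_⟩, h⟩
        rw [h]
        exact hc'
    rw [h2, card_product, card_class _ _ _ _ hM, card_class _ _ _ _ hM]
  rw [Finset.sum_congr rfl h1, sum_const, smul_eq_mul, Set.ncard_eq_toFinset_card _ hS, mul_comm]

/-- **Task BOX, second part.** -/
theorem tbox : S_TBOX := by
  intro k A M J d hk hM hd hdJ hco T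
  have : NeZero M := ⟨hM.ne'⟩
  have : NeZero d := ⟨hd.ne'⟩
  classical
  have hS : (S k A M).Finite := Set.toFinite _
  have hT : T.Finite := Set.toFinite _
  have hP : {x ∈ Pr k A M J | ((x.1 : ZMod d), (x.2 : ZMod d)) ∈ T} = ((bx k M J).filter
      fun x => ((x.1 : ZMod M), (x.2 : ZMod M)) ∈ S k A M ∧
        ((x.1 : ZMod d), (x.2 : ZMod d)) ∈ T : Finset (ℕ × ℕ)) := by
    ext x
    rw [Finset.mem_coe, mem_filter, mem_bx]
    unfold Pr
    constructor
    · rintro ⟨⟨a, b, c, d, e⟩, f⟩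
      exact ⟨⟨a, b, c, d⟩, e, f⟩
    · rintro ⟨⟨a, b, c, d⟩, e, f⟩
      exact ⟨⟨a, b, c, d, e⟩, f⟩
  rw [hP, Set.ncard_coe_finset]
  rw [Finset.card_eq_sum_card_fiberwise
    (f := fun x : ℕ × ℕ => (((x.1 : ZMod M), (x.2 : ZMod M)), ((x.1 : ZMod d), (x.2 : ZMod d))))
    (t := hS.toFinset ×ˢ hT.toFinset)
    (fun x hx => by
      have hx' := (mem_filter.1 (Finset.mem_coe.1 hx)).2
      exact Finset.mem_coe.2 (mem_product.2 ⟨hS.mem_toFinset.2 hx'.1, hT.mem_toFinset.2 hx'.2⟩))]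
  rw [Finset.mul_sum]
  have h1 : ∀ c ∈ hS.toFinset ×ˢ hT.toFinset, d ^ 2 * (((bx k M J).filter
      fun x => ((x.1 : ZMod M), (x.2 : ZMod M)) ∈ S k A M ∧
        ((x.1 : ZMod d), (x.2 : ZMod d)) ∈ T).filter
        fun x => (((x.1 : ZMod M), (x.2 : ZMod M)), ((x.1 : ZMod d), (x.2 : ZMod d))) = c).card ≤
      12 * k * J ^ 2 := by
    intro c _
    obtain ⟨v₁, hv₁⟩ := Nat.chineseRemainder hco c.1.1.val c.2.1.val
    obtain ⟨v₂, hv₂⟩ := Nat.chineseRemainder hco c.1.2.val c.2.2.val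
    have h2 : (((bx k M J).filter
      fun x => ((x.1 : ZMod M), (x.2 : ZMod M)) ∈ S k A M ∧
        ((x.1 : ZMod d), (x.2 : ZMod d)) ∈ T).filter
        fun x => (((x.1 : ZMod M), (x.2 : ZMod M)), ((x.1 : ZMod d), (x.2 : ZMod d))) = c) ⊆
        ((Ioc (3 * k * J * M) (3 * k * J * M + 3 * k * J * M)).filter (· ≡ v₁ [MOD M * d])) ×ˢ
        ((Ioc 0 (0 + J * M)).filter (· ≡ v₂ [MOD M * d])) := by
      intro x hx
      rw [mem_filter, mem_filter] at hx
      rw [mem_product, mem_filter, mem_filter]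
      unfold bx at hx
      rw [mem_product] at hx
      obtain ⟨⟨⟨a, b⟩, _⟩, h⟩ := hx
      have e1 : (x.1 : ZMod M) = c.1.1 := by rw [← h]
      have e2 : (x.2 : ZMod M) = c.1.2 := by rw [← h]
      have e3 : (x.1 : ZMod d) = c.2.1 := by rw [← h]
      have e4 : (x.2 : ZMod d) = c.2.2 := by rw [← h]
      rw [cast_eq_iff] at e1 e2 e3 e4
      refine ⟨⟨a, ?_⟩, b, ?_⟩
      · exact (Nat.modEq_and_modEq_iff_modEq_mul hco).1 ⟨e1.trans hv₁.1.symm, e3.trans hv₁.2.symm⟩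
      · exact (Nat.modEq_and_modEq_iff_modEq_mul hco).1 ⟨e2.trans hv₂.1.symm, e4.trans hv₂.2.symm⟩
    have h3 := card_le_card h2
    rw [card_product] at h3
    have h4 := card_class_le (3 * k * J * M) (3 * k * J) M d v₁ hM hd
    have h5 := card_class_le 0 J M d v₂ hM hd
    refine (Nat.mul_le_mul_left _ h3).trans ?_
    have h6 : ∀ a b : ℕ, d ^ 2 * (a * b) = (d * a) * (d * b) := fun a b => by ring
    rw [h6]
    refine (Nat.mul_le_mul h4 h5).trans ?_
    have h7 : 3 * k * J + d ≤ 4 * k * J := by nlinarith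
    have h8 : J + d ≤ 2 * J := by omega
    refine (Nat.mul_le_mul h7 h8).trans ?_
    nlinarith [Nat.zero_le (k * J ^ 2)]
  refine (Finset.sum_le_sum h1).trans ?_
  rw [sum_const, smul_eq_mul, card_product, ← Set.ncard_eq_toFinset_card _ hS,
    ← Set.ncard_eq_toFinset_card _ hT]
  refine le_of_eq ?_
  ring

theorem ncard_le_of_range {d : ℕ} [NeZero d] (T : Set (ZMod d × ZMod d))
    (f : ZMod d → ZMod d × ZMod d) (h : T ⊆ Set.range f) : T.ncard ≤ d := by
  refine (Set.ncard_le_ncard h (Set.toFinite _)).trans ?_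
  rw [← Set.image_univ]
  refine (Set.ncard_image_le (Set.toFinite _)).trans ?_
  rw [Set.ncard_univ, Nat.card_eq_fintype_card, ZMod.card]

/-- **Task BOX, third part.** -/
theorem small : S_SMALL := by
  intro k A M J d hk hM hd hdJ hco
  have : NeZero M := ⟨hM.ne'⟩
  have : NeZero d := ⟨hd.ne'⟩
  have hfin : ∀ Q : ℕ × ℕ → Prop, {x ∈ Pr k A M J | Q x}.Finite := by
    intro Q
    refine Set.Finite.subset (bx k M J).finite_toSet ?_
    rintro x ⟨⟨a, b, c, d, _⟩, _⟩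
    exact Finset.mem_coe.2 (mem_bx.2 ⟨a, b, c, d⟩)
  have key : ∀ T : Set (ZMod d × ZMod d), T.ncard ≤ d →
      d * {x ∈ Pr k A M J | ((x.1 : ZMod d), (x.2 : ZMod d)) ∈ T}.ncard ≤
        12 * k * J ^ 2 * (S k A M).ncard := by
    intro T hT
    have h1 := tbox k A M J d hk hM hd hdJ hco T
    have h2 : 12 * k * J ^ 2 * (S k A M).ncard * T.ncard ≤
        12 * k * J ^ 2 * (S k A M).ncard * d := Nat.mul_le_mul_left _ hT
    refine le_of_mul_le_mul_left ?_ hd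
    calc d * (d * {x ∈ Pr k A M J | ((x.1 : ZMod d), (x.2 : ZMod d)) ∈ T}.ncard)
        = d ^ 2 * {x ∈ Pr k A M J | ((x.1 : ZMod d), (x.2 : ZMod d)) ∈ T}.ncard := by ring
      _ ≤ 12 * k * J ^ 2 * (S k A M).ncard * d := h1.trans h2
      _ = d * (12 * k * J ^ 2 * (S k A M).ncard) := by ring
  constructor
  · set T₁ : Set (ZMod d × ZMod d) := {x | x.1 = 0} with hT₁
    set T₂ : Set (ZMod d × ZMod d) := {x | x.2 = 0} with hT₂
    set T₃ : Set (ZMod d × ZMod d) := {x | x.1 = 3 * (k : ZMod d) * x.2} with hT₃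
    set T₄ : Set (ZMod d × ZMod d) := {x | x.1 = -(3 * (k : ZMod d) * x.2)} with hT₄
    have k₁ := key T₁ (ncard_le_of_range T₁ (fun y => (0, y)) (by
      rintro ⟨a, b⟩ h
      exact ⟨b, Prod.ext (Eq.symm h) rfl⟩))
    have k₂ := key T₂ (ncard_le_of_range T₂ (fun y => (y, 0)) (by
      rintro ⟨a, b⟩ h
      exact ⟨a, Prod.ext rfl (Eq.symm h)⟩))
    have k₃ := key T₃ (ncard_le_of_range T₃ (fun y => (3 * (k : ZMod d) * y, y)) (by
      rintro ⟨a, b⟩ h
      exact ⟨b, Prod.ext (Eq.symm h) rfl⟩))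
    have k₄ := key T₄ (ncard_le_of_range T₄ (fun y => (-(3 * (k : ZMod d) * y), y)) (by
      rintro ⟨a, b⟩ h
      exact ⟨b, Prod.ext (Eq.symm h) rfl⟩))
    have hsub : {x ∈ Pr k A M J | Dv k d x} ⊆
        (({x ∈ Pr k A M J | ((x.1 : ZMod d), (x.2 : ZMod d)) ∈ T₁} ∪
        {x ∈ Pr k A M J | ((x.1 : ZMod d), (x.2 : ZMod d)) ∈ T₂}) ∪
        {x ∈ Pr k A M J | ((x.1 : ZMod d), (x.2 : ZMod d)) ∈ T₃}) ∪
        {x ∈ Pr k A M J | ((x.1 : ZMod d), (x.2 : ZMod d)) ∈ T₄} := by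
      rintro x ⟨hx, hD⟩
      rcases hD with h | h | h | h
      · refine Or.inl (Or.inl (Or.inl ⟨hx, ?_⟩))
        exact (ZMod.natCast_eq_zero_iff _ _).2 h
      · refine Or.inl (Or.inl (Or.inr ⟨hx, ?_⟩))
        exact (ZMod.natCast_eq_zero_iff _ _).2 h
      · refine Or.inl (Or.inr ⟨hx, ?_⟩)
        have h1 : 3 * k * x.2 ≤ x.1 := by
          obtain ⟨a, _, _, c, _⟩ := hx
          have h2 : 3 * k * x.2 ≤ 3 * k * (J * M) := Nat.mul_le_mul_left _ c
          have h3 : 3 * k * (J * M) = 3 * k * J * M := by ring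
          omega
        have h2 := (ZMod.natCast_eq_zero_iff _ _).2 h
        rw [Nat.cast_sub h1, sub_eq_zero] at h2
        show (x.1 : ZMod d) = 3 * (k : ZMod d) * (x.2 : ZMod d)
        rw [h2]
        push_cast
        rfl
      · refine Or.inr ⟨hx, ?_⟩
        have h2 := (ZMod.natCast_eq_zero_iff _ _).2 h
        show (x.1 : ZMod d) = -(3 * (k : ZMod d) * (x.2 : ZMod d))
        push_cast at h2
        exact eq_neg_of_add_eq_zero_left h2
    have hc := Set.ncard_le_ncard hsub ((((hfin _).union (hfin _)).union (hfin _)).union (hfin _))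
    have hc1 := Set.ncard_union_le (({x ∈ Pr k A M J | ((x.1 : ZMod d), (x.2 : ZMod d)) ∈ T₁} ∪
        {x ∈ Pr k A M J | ((x.1 : ZMod d), (x.2 : ZMod d)) ∈ T₂}) ∪
        {x ∈ Pr k A M J | ((x.1 : ZMod d), (x.2 : ZMod d)) ∈ T₃})
        {x ∈ Pr k A M J | ((x.1 : ZMod d), (x.2 : ZMod d)) ∈ T₄}
    have hc2 := Set.ncard_union_le ({x ∈ Pr k A M J | ((x.1 : ZMod d), (x.2 : ZMod d)) ∈ T₁} ∪
        {x ∈ Pr k A M J | ((x.1 : ZMod d), (x.2 : ZMod d)) ∈ T₂})
        {x ∈ Pr k A M J | ((x.1 : ZMod d), (x.2 : ZMod d)) ∈ T₃}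
    have hc3 := Set.ncard_union_le {x ∈ Pr k A M J | ((x.1 : ZMod d), (x.2 : ZMod d)) ∈ T₁}
        {x ∈ Pr k A M J | ((x.1 : ZMod d), (x.2 : ZMod d)) ∈ T₂}
    have hc4 : {x ∈ Pr k A M J | Dv k d x}.ncard ≤
        {x ∈ Pr k A M J | ((x.1 : ZMod d), (x.2 : ZMod d)) ∈ T₁}.ncard +
        {x ∈ Pr k A M J | ((x.1 : ZMod d), (x.2 : ZMod d)) ∈ T₂}.ncard +
        {x ∈ Pr k A M J | ((x.1 : ZMod d), (x.2 : ZMod d)) ∈ T₃}.ncard +
        {x ∈ Pr k A M J | ((x.1 : ZMod d), (x.2 : ZMod d)) ∈ T₄}.ncard := by omega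
    refine (Nat.mul_le_mul_left d hc4).trans ?_
    rw [mul_add, mul_add, mul_add]
    have e : 48 * k * J ^ 2 * (S k A M).ncard = 12 * k * J ^ 2 * (S k A M).ncard +
        12 * k * J ^ 2 * (S k A M).ncard + 12 * k * J ^ 2 * (S k A M).ncard +
        12 * k * J ^ 2 * (S k A M).ncard := by ring
    rw [e]
    omega
  · have h1 := tbox k A M J d hk hM hd hdJ hco {((0 : ZMod d), (0 : ZMod d))}
    rw [Set.ncard_singleton, mul_one] at h1
    have h2 : {x ∈ Pr k A M J | d ∣ x.1 ∧ d ∣ x.2} =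
        {x ∈ Pr k A M J | ((x.1 : ZMod d), (x.2 : ZMod d)) ∈
          ({((0 : ZMod d), (0 : ZMod d))} : Set (ZMod d × ZMod d))} := by
      ext x
      constructor
      · rintro ⟨a, b, c⟩
        exact ⟨a, Prod.ext ((ZMod.natCast_eq_zero_iff _ _).2 b)
          ((ZMod.natCast_eq_zero_iff _ _).2 c)⟩
      · rintro ⟨a, b⟩
        have b' : ((x.1 : ZMod d), (x.2 : ZMod d)) = ((0 : ZMod d), (0 : ZMod d)) := b
        exact ⟨a, (ZMod.natCast_eq_zero_iff _ _).1 (Prod.ext_iff.1 b').1,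
          (ZMod.natCast_eq_zero_iff _ _).1 (Prod.ext_iff.1 b').2⟩
    rw [h2]
    exact h1

end Pool.Agent.Y333.LN
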