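import Pool.Agent.Y675.LN.Stm

/-!
# Project LN, task CURVE: points on `u v (u² - v²) = B` over a finite field

Elementary second moment over the family `u v (u² - k v²) = B`.
-/

set_option autoImplicit false
set_option linter.unusedSectionVars false

open Finset

namespace Pool.Agent.Y333.LN

section
variable {K : Type*} [Field K] [Fintype K] [DecidableEq K]

theorem card_root_le (n : ℕ) (hn : 0 < n) (c : K) :
    (univ.filter fun s : K => s ^ n = c).card ≤ n := by
  classical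
  have h : (univ.filter fun s : K => s ^ n = c) ⊆ (Polynomial.nthRoots n c).toFinset := by
    intro s hs
    rw [mem_filter] at hs
    rw [Multiset.mem_toFinset, Polynomial.mem_nthRoots hn]
    exact hs.2
  exact (card_le_card h).trans ((Multiset.toFinset_card_le _).trans
    (Polynomial.card_nthRoots n c))

theorem sum_root_le (n : ℕ) (hn : 0 < n) (c : K) :
    ∑ s : K, (if s ^ n = c then (1 : ℝ) else 0) ≤ n := by
  rw [Finset.sum_boole]
  exact_mod_cast card_root_le n hn c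

/-- the quartic form in the coordinates `t = u / v`, `v` -/
def g (k : K) (t v : K) : K := t * (t ^ 2 - k) * v ^ 4

/-- number of points -/
noncomputable def N (k B : K) : ℝ := ∑ t : K, ∑ v : K, if v ≠ 0 ∧ g k t v = B then 1 else 0

/-- number of roots -/
noncomputable def r (k : K) : ℝ := ∑ t : K, if t * (t ^ 2 - k) = 0 then 1 else 0

theorem sum_ne_zero : ∑ v : K, (if v ≠ 0 then (1 : ℝ) else 0) = Fintype.card K - 1 := by
  rw [Finset.sum_boole, Finset.filter_ne' univ (0 : K), Finset.card_erase_of_mem (mem_univ _),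
    Finset.card_univ, Nat.cast_sub Fintype.card_pos]
  norm_num

theorem sum_one : ∑ _v : K, (1 : ℝ) = Fintype.card K := by
  simp

theorem N_scale_v {s : K} (hs : s ≠ 0) (k B : K) : N k (s ^ 4 * B) = N k B := by
  unfold N
  refine Finset.sum_congr rfl fun t _ => ?_
  refine (Fintype.sum_equiv (Equiv.mulLeft₀ s hs) _ _ fun v => ?_).symm
  refine if_congr ?_ rfl rfl
  change (v ≠ 0 ∧ g k t v = B) ↔ (s * v ≠ 0 ∧ g k t (s * v) = s ^ 4 * B)
  unfold g
  constructor
  · rintro ⟨h1, h2⟩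
    refine ⟨mul_ne_zero hs h1, ?_⟩
    rw [← h2]
    ring
  · rintro ⟨h1, h2⟩
    refine ⟨fun h => h1 (by rw [h, mul_zero]), ?_⟩
    have h3 : s ^ 4 * (t * (t ^ 2 - k) * v ^ 4) = s ^ 4 * B := by rw [← h2]; ring
    exact mul_left_cancel₀ (pow_ne_zero 4 hs) h3

theorem N_scale_t {c : K} (hc : c ≠ 0) (k B : K) : N (k * c ^ 2) (c ^ 3 * B) = N k B := by
  unfold N
  refine (Fintype.sum_equiv (Equiv.mulLeft₀ c hc) _ _ fun t => ?_).symm
  refine Finset.sum_congr rfl fun v _ => ?_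
  refine if_congr ?_ rfl rfl
  change (v ≠ 0 ∧ g k t v = B) ↔ (v ≠ 0 ∧ g (k * c ^ 2) (c * t) v = c ^ 3 * B)
  unfold g
  refine and_congr_right fun _ => ?_
  have h3 : c * t * ((c * t) ^ 2 - k * c ^ 2) * v ^ 4 =
      c ^ 3 * (t * (t ^ 2 - k) * v ^ 4) := by ring
  rw [h3]
  exact (mul_right_inj' (pow_ne_zero 3 hc)).symm

theorem r_scale {c : K} (hc : c ≠ 0) (k : K) : r (k * c ^ 2) = r k := by
  unfold r
  refine (Fintype.sum_equiv (Equiv.mulLeft₀ c hc) _ _ fun t => ?_).symm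
  refine if_congr ?_ rfl rfl
  change (t * (t ^ 2 - k) = 0) ↔ (c * t * ((c * t) ^ 2 - k * c ^ 2) = 0)
  have h3 : c * t * ((c * t) ^ 2 - k * c ^ 2) = c ^ 3 * (t * (t ^ 2 - k)) := by ring
  rw [h3, mul_eq_zero (a := c ^ 3)]
  exact (or_iff_right (pow_ne_zero 3 hc)).symm

/-- the first moment -/
theorem moment_one (k : K) : ∑ B : K, (if B ≠ 0 then N k B else 0) =
    (Fintype.card K - 1) * (Fintype.card K - r k) := by
  have h1 : ∀ B : K, (if B ≠ 0 then N k B else 0) =
      ∑ t : K, ∑ v : K, if B ≠ 0 ∧ v ≠ 0 ∧ g k t v = B then (1 : ℝ) else 0 := by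
    intro B
    unfold N
    by_cases h : B ≠ 0
    · simp [h]
    · simp [h]
  simp only [h1]
  rw [Finset.sum_comm]
  have h2 : ∀ t : K, ∑ B : K, ∑ v : K, (if B ≠ 0 ∧ v ≠ 0 ∧ g k t v = B then (1 : ℝ) else 0) =
      (Fintype.card K - 1) * (1 - if t * (t ^ 2 - k) = 0 then 1 else 0) := by
    intro t
    rw [Finset.sum_comm]
    have h3 : ∀ v : K, ∑ B : K, (if B ≠ 0 ∧ v ≠ 0 ∧ g k t v = B then (1 : ℝ) else 0) =
        (if v ≠ 0 then 1 else 0) * (1 - if t * (t ^ 2 - k) = 0 then 1 else 0) := by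
      intro v
      by_cases hv : v = 0
      · simp [hv]
      · by_cases ht : t * (t ^ 2 - k) = 0
        · have : g k t v = 0 := by unfold g; rw [ht, zero_mul]
          have h4 : ∀ B : K, ¬ (B ≠ 0 ∧ v ≠ 0 ∧ g k t v = B) := by
            rintro B ⟨h5, _, h6⟩
            exact h5 (by rw [← h6, this])
          simp [h4, ht]
        · have hg : g k t v ≠ 0 := by
            unfold g
            exact mul_ne_zero ht (pow_ne_zero 4 hv)
          rw [Finset.sum_eq_single (g k t v)]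
          · simp [hg, hv, ht]
          · intro B _ hB
            have : ¬ (B ≠ 0 ∧ v ≠ 0 ∧ g k t v = B) := fun h => hB h.2.2.symm
            simp [this]
          · intro h
            exact absurd (mem_univ _) h
    simp only [h3]
    rw [← Finset.sum_mul, sum_ne_zero]
  simp only [h2]
  rw [← Finset.mul_sum, Finset.sum_sub_distrib, sum_one]
  rfl

/-- the variance -/
noncomputable def V (k : K) : ℝ :=
  ∑ B : K, if B ≠ 0 then (N k B - (Fintype.card K - r k)) ^ 2 else 0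

/-- the second moment -/
noncomputable def W (k : K) : ℝ := ∑ B : K, if B ≠ 0 then (N k B) ^ 2 else 0

theorem V_nonneg (k : K) : 0 ≤ V k := by
  unfold V
  refine Finset.sum_nonneg fun B _ => ?_
  split_ifs
  · positivity
  · exact le_rfl

theorem V_eq (k : K) : V k = W k - (Fintype.card K - 1) * (Fintype.card K - r k) ^ 2 := by
  have h1 : V k = W k - 2 * (Fintype.card K - r k) * (∑ B : K, (if B ≠ 0 then N k B else 0)) +
      (Fintype.card K - r k) ^ 2 * ∑ B : K, (if B ≠ 0 then (1 : ℝ) else 0) := by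
    unfold V W
    rw [Finset.mul_sum, Finset.mul_sum, ← Finset.sum_sub_distrib, ← Finset.sum_add_distrib]
    refine Finset.sum_congr rfl fun B _ => ?_
    split_ifs <;> ring
  rw [h1, moment_one, sum_ne_zero]
  ring

theorem V_sq {c : K} (hc : c ≠ 0) : V (c ^ 2) = V (1 : K) := by
  have h0 : (c ^ 2 : K) = 1 * c ^ 2 := (one_mul _).symm
  unfold V
  rw [h0, r_scale hc]
  refine (Fintype.sum_equiv (Equiv.mulLeft₀ (c ^ 3) (pow_ne_zero 3 hc)) _ _ fun B => ?_).symm
  change (if B ≠ 0 then (N 1 B - (Fintype.card K - r (1 : K))) ^ 2 else 0) =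
    (if c ^ 3 * B ≠ 0 then (N (1 * c ^ 2) (c ^ 3 * B) - (Fintype.card K - r (1 : K))) ^ 2 else 0)
  rw [N_scale_t hc]
  refine if_congr ?_ rfl rfl
  constructor
  · intro h
    exact mul_ne_zero (pow_ne_zero 3 hc) h
  · intro h h'
    exact h (by rw [h', mul_zero])

/-- the points of two fibres for the same `k` -/
noncomputable def H (t v t' v' : K) : ℝ :=
  ∑ k : K, if v ≠ 0 ∧ v' ≠ 0 ∧ g k t v = g k t' v' ∧ g k t v ≠ 0 then 1 else 0

theorem sum_W : ∑ k : K, W k = ∑ t : K, ∑ v : K, ∑ v' : K, ∑ t' : K, H t v t' v' := by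
  have h1 : ∀ k : K, W k = ∑ t : K, ∑ v : K, ∑ v' : K, ∑ t' : K,
      if v ≠ 0 ∧ v' ≠ 0 ∧ g k t v = g k t' v' ∧ g k t v ≠ 0 then (1 : ℝ) else 0 := by
    intro k
    have h2 : ∀ B : K, (if B ≠ 0 then (N k B) ^ 2 else 0) = ∑ t : K, ∑ v : K, ∑ v' : K, ∑ t' : K,
        if B ≠ 0 ∧ (v ≠ 0 ∧ g k t v = B) ∧ (v' ≠ 0 ∧ g k t' v' = B) then (1 : ℝ) else 0 := by
      intro B
      by_cases hB : B ≠ 0
      · rw [if_pos hB, sq]
        unfold N
        rw [Finset.sum_mul]
        refine Finset.sum_congr rfl fun t _ => ?_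
        rw [Finset.sum_mul]
        refine Finset.sum_congr rfl fun v _ => ?_
        rw [Finset.sum_comm, Finset.mul_sum]
        refine Finset.sum_congr rfl fun v' _ => ?_
        rw [Finset.mul_sum]
        refine Finset.sum_congr rfl fun t' _ => ?_
        by_cases h3 : (v ≠ 0 ∧ g k t v = B) <;> by_cases h4 : (v' ≠ 0 ∧ g k t' v' = B) <;>
          simp [h3, h4, hB]
      · rw [if_neg hB]
        simp [hB]
    unfold W
    simp only [h2]
    rw [Finset.sum_comm]
    refine Finset.sum_congr rfl fun t _ => ?_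
    rw [Finset.sum_comm]
    refine Finset.sum_congr rfl fun v _ => ?_
    rw [Finset.sum_comm]
    refine Finset.sum_congr rfl fun v' _ => ?_
    rw [Finset.sum_comm]
    refine Finset.sum_congr rfl fun t' _ => ?_
    rw [Finset.sum_eq_single (g k t v)]
    · have : (g k t v ≠ 0 ∧ (v ≠ 0 ∧ g k t v = g k t v) ∧ (v' ≠ 0 ∧ g k t' v' = g k t v)) ↔
          (v ≠ 0 ∧ v' ≠ 0 ∧ g k t v = g k t' v' ∧ g k t v ≠ 0) := by
        constructor
        · rintro ⟨a, ⟨b, _⟩, c, d⟩
          exact ⟨b, c, d.symm, a⟩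
        · rintro ⟨a, b, c, d⟩
          exact ⟨d, ⟨a, rfl⟩, b, c.symm⟩
      exact if_congr this rfl rfl
    · intro B _ hB
      have : ¬ (B ≠ 0 ∧ (v ≠ 0 ∧ g k t v = B) ∧ (v' ≠ 0 ∧ g k t' v' = B)) :=
        fun h => hB h.2.1.2.symm
      simp [this]
    · intro h
      exact absurd (mem_univ _) h
  simp only [h1]
  rw [Finset.sum_comm]
  refine Finset.sum_congr rfl fun t _ => ?_
  rw [Finset.sum_comm]
  refine Finset.sum_congr rfl fun v _ => ?_
  rw [Finset.sum_comm]
  refine Finset.sum_congr rfl fun v' _ => ?_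
  rw [Finset.sum_comm]
  rfl

theorem H_zero {t v t' v' : K}
    (h : ∀ k : K, ¬ (v ≠ 0 ∧ v' ≠ 0 ∧ g k t v = g k t' v' ∧ g k t v ≠ 0)) : H t v t' v' = 0 := by
  unfold H
  simp [h]

theorem H_le_card {t v t' v' : K} (k₀ : K) (h : g k₀ t v = 0) :
    H t v t' v' ≤ Fintype.card K - 1 := by
  unfold H
  have h1 : ∀ k : K, (if v ≠ 0 ∧ v' ≠ 0 ∧ g k t v = g k t' v' ∧ g k t v ≠ 0 then (1 : ℝ) else 0) ≤
      1 - if k = k₀ then 1 else 0 := by
    intro k
    by_cases hk : k = k₀
    · subst hk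
      simp [h]
    · simp only [hk, if_false]
      split_ifs <;> norm_num
  refine (Finset.sum_le_sum fun k _ => h1 k).trans ?_
  rw [Finset.sum_sub_distrib, sum_one]
  simp

theorem H_le_one {t v t' v' : K} (h : t * v ^ 4 ≠ t' * v' ^ 4) : H t v t' v' ≤ 1 := by
  unfold H
  have h1 : ∀ k : K, (if v ≠ 0 ∧ v' ≠ 0 ∧ g k t v = g k t' v' ∧ g k t v ≠ 0 then (1 : ℝ) else 0) ≤
      if k = (t ^ 3 * v ^ 4 - t' ^ 3 * v' ^ 4) / (t * v ^ 4 - t' * v' ^ 4) then 1 else 0 := by
    intro k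
    by_cases hk : v ≠ 0 ∧ v' ≠ 0 ∧ g k t v = g k t' v' ∧ g k t v ≠ 0
    · have h2 : k = (t ^ 3 * v ^ 4 - t' ^ 3 * v' ^ 4) / (t * v ^ 4 - t' * v' ^ 4) := by
        rw [eq_div_iff (sub_ne_zero.2 h)]
        have h3 := hk.2.2.1
        unfold g at h3
        linear_combination -h3
      rw [if_pos hk, if_pos h2]
    · rw [if_neg hk]
      split_ifs <;> norm_num
  refine (Finset.sum_le_sum fun k _ => h1 k).trans ?_
  simp

/-- the pointwise bound -/
theorem H_le (h2 : (2 : K) ≠ 0) {t v v' : K} (ht : t ≠ 0) (hv : v ≠ 0) (hv' : v' ≠ 0) (t' : K) :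
    H t v t' v' ≤ 1 - (if t' = 0 then 1 else 0) - (if t' = t then 1 else 0) -
      (if t' = -t then 1 else 0) - (if t' = v ^ 4 / v' ^ 4 * t then 1 else 0) +
      (if t' = t then 1 else 0) * (Fintype.card K * if v ^ 4 = v' ^ 4 then 1 else 0) +
      (if t' = -t then 1 else 0) * (Fintype.card K * if v ^ 4 = -v' ^ 4 then 1 else 0) := by
  have hv4 : v ^ 4 ≠ 0 := pow_ne_zero 4 hv
  have hv4' : v' ^ 4 ≠ 0 := pow_ne_zero 4 hv'
  have htt : t ≠ -t := by
    intro h
    have h3 : 2 * t = 0 := by linear_combination h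
    exact (mul_ne_zero h2 ht) h3
  have hnt : -t ≠ 0 := neg_ne_zero.2 ht
  have hr0 : v ^ 4 / v' ^ 4 * t ≠ 0 := mul_ne_zero (div_ne_zero hv4 hv4') ht
  have hr1 : v ^ 4 / v' ^ 4 * t = t ↔ v ^ 4 = v' ^ 4 := by
    rw [mul_eq_right₀ ht, div_eq_one_iff_eq hv4']
  have hr2 : v ^ 4 / v' ^ 4 * t = -t ↔ v ^ 4 = -v' ^ 4 := by
    have e : -t = -1 * t := by ring
    rw [e, mul_left_inj' ht, div_eq_iff hv4']
    constructor
    · intro h; rw [h]; ring
    · intro h; rw [h]; ring
  have hr3 : t' = v ^ 4 / v' ^ 4 * t ↔ t' * v' ^ 4 = t * v ^ 4 := by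
    rw [div_mul_eq_mul_div, eq_div_iff hv4', mul_comm t]
  generalize v ^ 4 / v' ^ 4 * t = ρ at *
  have hcard : (1 : ℝ) ≤ Fintype.card K := by exact_mod_cast Fintype.card_pos
  by_cases h0 : t' = 0
  · have h1 : t' ≠ t := by rw [h0]; exact ht.symm
    have h3 : t' ≠ -t := by rw [h0]; exact hnt.symm
    have h4 : t' ≠ ρ := by rw [h0]; exact hr0.symm
    rw [if_pos h0, if_neg h1, if_neg h3, if_neg h4, H_zero]
    · norm_num
    · rintro k ⟨_, _, h5, h6⟩
      apply h6
      rw [h5, h0]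
      unfold g
      ring
  by_cases h1 : t' = t
  · have h3 : t' ≠ -t := by rw [h1]; exact htt
    by_cases h5 : v ^ 4 = v' ^ 4
    · have h6 := H_le_card (t := t) (v := v) (t' := t') (v' := v') (t ^ 2) (by unfold g; ring)
      have h4 : t' = ρ := by rw [h1, hr1.2 h5]
      rw [if_neg h0, if_pos h1, if_neg h3, if_pos h4, if_pos h5]
      linarith
    · have h4 : t' ≠ ρ := by
        rw [h1]
        intro h
        exact h5 (hr1.1 h.symm)
      rw [if_neg h0, if_pos h1, if_neg h3, if_neg h4, if_neg h5, H_zero]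
      · norm_num
      · rintro k ⟨_, _, h8, h9⟩
        apply h5
        rw [h1] at h8
        unfold g at h8 h9
        have h10 : t * (t ^ 2 - k) ≠ 0 := left_ne_zero_of_mul h9
        exact mul_left_cancel₀ h10 h8
  by_cases h3 : t' = -t
  · by_cases h5 : v ^ 4 = -v' ^ 4
    · have h6 := H_le_card (t := t) (v := v) (t' := t') (v' := v') (t ^ 2) (by unfold g; ring)
      have h4 : t' = ρ := by rw [h3, hr2.2 h5]
      rw [if_neg h0, if_neg h1, if_pos h3, if_pos h4, if_pos h5]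
      linarith
    · have h4 : t' ≠ ρ := by
        rw [h3]
        intro h
        exact h5 (hr2.1 h.symm)
      rw [if_neg h0, if_neg h1, if_pos h3, if_neg h4, if_neg h5, H_zero]
      · norm_num
      · rintro k ⟨_, _, h8, h9⟩
        apply h5
        rw [h3] at h8
        unfold g at h8 h9
        have h10 : t * (t ^ 2 - k) ≠ 0 := left_ne_zero_of_mul h9
        refine mul_left_cancel₀ h10 ?_
        linear_combination h8
  by_cases h4 : t' = ρ
  · have h5 := hr3.1 h4
    rw [if_neg h0, if_neg h1, if_neg h3, if_pos h4, H_zero]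
    · norm_num
    · rintro k ⟨_, _, h8, h9⟩
      unfold g at h8
      have h6 : t * v ^ 4 * (t ^ 2 - t' ^ 2) = 0 := by
        linear_combination h8 + (t' ^ 2 - k) * h5
      have h7 : t ^ 2 - t' ^ 2 = 0 := (mul_eq_zero.1 h6).resolve_left (mul_ne_zero ht hv4)
      have h10 : (t' - t) * (t' + t) = 0 := by linear_combination -h7
      rcases mul_eq_zero.1 h10 with h | h
      · exact h1 (sub_eq_zero.1 h)
      · exact h3 (eq_neg_of_add_eq_zero_left h)
  · have h5 : t * v ^ 4 ≠ t' * v' ^ 4 := fun h => h4 (hr3.2 h.symm)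
    have h6 := H_le_one h5
    rw [if_neg h0, if_neg h1, if_neg h3, if_neg h4]
    linarith

theorem sum_H_le (h2 : (2 : K) ≠ 0) (t v v' : K) :
    ∑ t' : K, H t v t' v' ≤ (if t ≠ 0 then 1 else 0) * ((if v ≠ 0 then 1 else 0) *
      ((if v' ≠ 0 then 1 else 0) * (Fintype.card K - 4) + Fintype.card K *
        (if v' ≠ 0 then (if v' ^ 4 = v ^ 4 then 1 else 0) + (if v' ^ 4 = -v ^ 4 then 1 else 0)
          else 0))) := by
  by_cases ht : t = 0
  · have : ∀ t' : K, H t v t' v' = 0 := by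
      intro t'
      apply H_zero
      rintro k ⟨_, _, _, h4⟩
      apply h4
      rw [ht]
      unfold g
      ring
    simp only [this, Finset.sum_const_zero]
    rw [if_neg (not_not.2 ht), zero_mul]
  by_cases hv : v = 0
  · have : ∀ t' : K, H t v t' v' = 0 := by
      intro t'
      apply H_zero
      rintro k ⟨h, _, _, _⟩
      exact h hv
    simp only [this, Finset.sum_const_zero]
    rw [if_neg (not_not.2 hv), zero_mul, mul_zero]
  by_cases hv' : v' = 0
  · have : ∀ t' : K, H t v t' v' = 0 := by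
      intro t'
      apply H_zero
      rintro k ⟨_, h, _, _⟩
      exact h hv'
    simp only [this, Finset.sum_const_zero]
    rw [if_neg (not_not.2 hv'), if_neg (not_not.2 hv'), zero_mul, mul_zero, add_zero, mul_zero,
      mul_zero]
  refine (Finset.sum_le_sum fun t' _ => H_le h2 ht hv hv' t').trans ?_
  have e1 : (v' ^ 4 = v ^ 4) ↔ (v ^ 4 = v' ^ 4) := eq_comm
  have e2 : (v' ^ 4 = -v ^ 4) ↔ (v ^ 4 = -v' ^ 4) := by
    constructor
    · intro h; rw [h]; ring
    · intro h; rw [h]; ring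
  simp only [Finset.sum_add_distrib, Finset.sum_sub_distrib, sum_one, ← Finset.sum_mul,
    Finset.sum_ite_eq', Finset.mem_univ, if_true, ht, hv, hv', ne_eq, not_false_eq_true, e1, e2]
  refine le_of_eq ?_
  ring

theorem sum_W_le (h2 : (2 : K) ≠ 0) : ∑ k : K, W k ≤
    ((Fintype.card K : ℝ) - 1) ^ 3 * (Fintype.card K - 4) +
      8 * Fintype.card K * ((Fintype.card K : ℝ) - 1) ^ 2 := by
  rw [sum_W]
  have hcard : (1 : ℝ) ≤ Fintype.card K := by exact_mod_cast Fintype.card_pos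
  set q : ℝ := (Fintype.card K : ℝ) with hq
  have h3 : ∀ t v : K, ∑ v' : K, ∑ t' : K, H t v t' v' ≤
      (if t ≠ 0 then 1 else 0) * ((if v ≠ 0 then 1 else 0) * ((q - 1) * (q - 4) + q * 8)) := by
    intro t v
    refine (Finset.sum_le_sum fun v' _ => sum_H_le h2 t v v').trans ?_
    rw [← Finset.mul_sum, ← Finset.mul_sum]
    refine mul_le_mul_of_nonneg_left (mul_le_mul_of_nonneg_left ?_ (by split_ifs <;> norm_num))
      (by split_ifs <;> norm_num)
    rw [Finset.sum_add_distrib, ← Finset.sum_mul, sum_ne_zero, ← Finset.mul_sum, ← hq]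
    refine add_le_add le_rfl (mul_le_mul_of_nonneg_left ?_ (by linarith))
    have h4 : ∀ v' : K, (if v' ≠ 0 then (if v' ^ 4 = v ^ 4 then (1 : ℝ) else 0) +
        (if v' ^ 4 = -v ^ 4 then 1 else 0) else 0) ≤
        (if v' ^ 4 = v ^ 4 then 1 else 0) + (if v' ^ 4 = -v ^ 4 then 1 else 0) := by
      intro v'
      by_cases h5 : v' ≠ 0
      · rw [if_pos h5]
      · rw [if_neg h5]
        split_ifs <;> norm_num
    refine (Finset.sum_le_sum fun v' _ => h4 v').trans ?_
    rw [Finset.sum_add_distrib]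
    have h5 := sum_root_le 4 (by norm_num) (v ^ 4)
    have h6 := sum_root_le 4 (by norm_num) (-v ^ 4)
    push_cast at h5 h6
    linarith
  refine (Finset.sum_le_sum fun t _ => Finset.sum_le_sum fun v _ => h3 t v).trans ?_
  have h7 : ∀ t : K, ∑ v : K, (if t ≠ 0 then (1 : ℝ) else 0) * ((if v ≠ 0 then 1 else 0) *
      ((q - 1) * (q - 4) + q * 8)) =
      (if t ≠ 0 then (1 : ℝ) else 0) * ((q - 1) * ((q - 1) * (q - 4) + q * 8)) := by
    intro t
    rw [← Finset.mul_sum, ← Finset.sum_mul, sum_ne_zero]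
  simp only [h7]
  rw [← Finset.sum_mul, sum_ne_zero, ← hq]
  refine le_of_eq ?_
  ring

theorem sum_r : ∑ k : K, r k = 2 * Fintype.card K - 1 := by
  unfold r
  rw [Finset.sum_comm]
  have h : ∀ t : K, ∑ k : K, (if t * (t ^ 2 - k) = 0 then (1 : ℝ) else 0) =
      1 + (Fintype.card K - 1) * (if t = 0 then 1 else 0) := by
    intro t
    by_cases ht : t = 0
    · subst ht
      simp
    · have : ∀ k : K, (t * (t ^ 2 - k) = 0) ↔ k = t ^ 2 := by
        intro k
        rw [mul_eq_zero, sub_eq_zero]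
        simp [ht, eq_comm]
      simp [this, ht]
  simp only [h]
  rw [Finset.sum_add_distrib, sum_one, ← Finset.mul_sum]
  simp
  ring

theorem r_sq (k : K) : 3 * r k - 2 ≤ r k ^ 2 := by
  obtain ⟨n, hn⟩ : ∃ n : ℕ, r k = n := ⟨_, Finset.sum_boole _ _⟩
  rw [hn]
  have h : (0 : ℤ) ≤ ((n : ℤ) - 1) * ((n : ℤ) - 2) := by
    rcases le_or_gt (n : ℤ) 1 with h | h
    · nlinarith
    · nlinarith
  have h' : (0 : ℝ) ≤ ((n : ℝ) - 1) * ((n : ℝ) - 2) := by exact_mod_cast h
  nlinarith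

theorem sum_V_le (h2 : (2 : K) ≠ 0) : ∑ k : K, V k ≤
    ((Fintype.card K : ℝ) - 1) ^ 2 * (6 * Fintype.card K + 1) := by
  have hcard : (1 : ℝ) ≤ Fintype.card K := by exact_mod_cast Fintype.card_pos
  have h1 : ∑ k : K, V k = ∑ k : K, W k -
      (Fintype.card K - 1) * ∑ k : K, ((Fintype.card K : ℝ) - r k) ^ 2 := by
    rw [Finset.mul_sum, ← Finset.sum_sub_distrib]
    exact Finset.sum_congr rfl fun k _ => V_eq k
  have h3 : (Fintype.card K : ℝ) ^ 3 - 2 * Fintype.card K * (2 * Fintype.card K - 1) +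
      (3 * (2 * Fintype.card K - 1) - 2 * Fintype.card K) ≤
      ∑ k : K, ((Fintype.card K : ℝ) - r k) ^ 2 := by
    have h4 : ∀ k : K, (Fintype.card K : ℝ) ^ 2 - 2 * Fintype.card K * r k + (3 * r k - 2) ≤
        ((Fintype.card K : ℝ) - r k) ^ 2 := by
      intro k
      have := r_sq k
      nlinarith
    refine le_trans (le_of_eq ?_) (Finset.sum_le_sum fun k _ => h4 k)
    rw [Finset.sum_add_distrib, Finset.sum_sub_distrib, Finset.sum_sub_distrib, ← Finset.mul_sum,
      ← Finset.mul_sum, sum_r]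
    simp
    ring
  have h5 := sum_W_le h2
  have h6 := mul_le_mul_of_nonneg_left h3 (by linarith : (0 : ℝ) ≤ Fintype.card K - 1)
  rw [h1]
  refine (sub_le_sub h5 h6).trans (le_of_eq ?_)
  ring

theorem V_one_le : ((Fintype.card K : ℝ) - 1) * V (1 : K) ≤ 2 * ∑ k : K, V k := by
  have h1 : ((Fintype.card K : ℝ) - 1) * V (1 : K) =
      ∑ c : K, ∑ k : K, if c ≠ 0 ∧ c ^ 2 = k then V k else 0 := by
    rw [← sum_ne_zero, Finset.sum_mul]
    refine Finset.sum_congr rfl fun c _ => ?_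
    by_cases hc : c = 0
    · simp [hc]
    · rw [Finset.sum_eq_single (c ^ 2)]
      · simp [hc, V_sq hc]
      · intro k _ hk
        have : ¬ (c ≠ 0 ∧ c ^ 2 = k) := fun h => hk h.2.symm
        simp [this]
      · intro h
        exact absurd (mem_univ _) h
  rw [h1, Finset.sum_comm, Finset.mul_sum]
  refine Finset.sum_le_sum fun k _ => ?_
  have h2 : ∀ c : K, (if c ≠ 0 ∧ c ^ 2 = k then V k else 0) ≤
      (if c ^ 2 = k then 1 else 0) * V k := by
    intro c
    have := V_nonneg k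
    by_cases h3 : c ^ 2 = k
    · rw [if_pos h3, one_mul]
      split_ifs
      · exact le_rfl
      · exact this
    · rw [if_neg h3, if_neg fun h => h3 h.2, zero_mul]
  refine (Finset.sum_le_sum fun c _ => h2 c).trans ?_
  rw [← Finset.sum_mul]
  refine mul_le_mul_of_nonneg_right ?_ (V_nonneg k)
  have := sum_root_le 2 (by norm_num) k
  push_cast at this
  exact this

theorem N_le_V {B : K} (hB : B ≠ 0) : ((Fintype.card K : ℝ) - 1) *
    (N 1 B - (Fintype.card K - r (1 : K))) ^ 2 ≤ 4 * V (1 : K) := by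
  set φ : K → ℝ := fun B => (N 1 B - (Fintype.card K - r (1 : K))) ^ 2 with hφ
  have hφ0 : ∀ B, 0 ≤ φ B := fun B => sq_nonneg _
  have h1 : ((Fintype.card K : ℝ) - 1) * φ B =
      ∑ s : K, ∑ B' : K, if s ≠ 0 ∧ s ^ 4 * B = B' then φ B' else 0 := by
    rw [← sum_ne_zero, Finset.sum_mul]
    refine Finset.sum_congr rfl fun s _ => ?_
    by_cases hs : s = 0
    · simp [hs]
    · rw [Finset.sum_eq_single (s ^ 4 * B)]
      · simp [hs, hφ, N_scale_v hs]
      · intro k _ hk
        have : ¬ (s ≠ 0 ∧ s ^ 4 * B = k) := fun h => hk h.2.symm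
        simp [this]
      · intro h
        exact absurd (mem_univ _) h
  show ((Fintype.card K : ℝ) - 1) * φ B ≤ _
  rw [h1, Finset.sum_comm]
  unfold V
  rw [Finset.mul_sum]
  refine Finset.sum_le_sum fun B' _ => ?_
  by_cases hB' : B' = 0
  · have : ∀ s : K, ¬ (s ≠ 0 ∧ s ^ 4 * B = B') := by
      rintro s ⟨h3, h4⟩
      rw [hB'] at h4
      exact mul_ne_zero (pow_ne_zero 4 h3) hB h4
    rw [if_neg (not_not.2 hB'), mul_zero]
    refine le_of_eq (Finset.sum_eq_zero fun s _ => if_neg (this s))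
  · rw [if_pos hB']
    have h2 : ∀ s : K, (if s ≠ 0 ∧ s ^ 4 * B = B' then φ B' else 0) ≤
        (if s ^ 4 = B' / B then 1 else 0) * φ B' := by
      intro s
      by_cases h3 : s ^ 4 * B = B'
      · have h4 : s ^ 4 = B' / B := by rw [eq_div_iff hB, h3]
        rw [if_pos h4, one_mul]
        split_ifs
        · exact le_rfl
        · exact hφ0 _
      · have h5 : ¬ (s ≠ 0 ∧ s ^ 4 * B = B') := fun h => h3 h.2
        rw [if_neg h5]
        exact mul_nonneg (by split_ifs <;> norm_num) (hφ0 _)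
    refine (Finset.sum_le_sum fun s _ => h2 s).trans ?_
    rw [← Finset.sum_mul]
    refine mul_le_mul_of_nonneg_right ?_ (hφ0 _)
    have := sum_root_le 4 (by norm_num) (B' / B)
    push_cast at this
    exact this

theorem r_one_le : r (1 : K) ≤ 3 := by
  unfold r
  have h1 : ∀ t : K, (if t * (t ^ 2 - 1) = 0 then (1 : ℝ) else 0) ≤
      (if t = 0 then 1 else 0) + ((if t = 1 then 1 else 0) + (if t = -1 then 1 else 0)) := by
    intro t
    by_cases h : t * (t ^ 2 - 1) = 0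
    · rw [if_pos h]
      rcases mul_eq_zero.1 h with h2 | h2
      · rw [if_pos h2]
        split_ifs <;> norm_num
      · have h3 : (t - 1) * (t + 1) = 0 := by linear_combination h2
        rcases mul_eq_zero.1 h3 with h4 | h4
        · rw [if_pos (sub_eq_zero.1 h4)]
          split_ifs <;> norm_num
        · rw [if_pos (eq_neg_of_add_eq_zero_left h4)]
          split_ifs <;> norm_num
    · rw [if_neg h]
      split_ifs <;> norm_num
  refine (Finset.sum_le_sum fun t _ => h1 t).trans ?_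
  rw [Finset.sum_add_distrib, Finset.sum_add_distrib]
  simp
  norm_num

theorem N_lower (h2 : (2 : K) ≠ 0) {B : K} (hB : B ≠ 0) (hq : 8 ≤ Fintype.card K) :
    (Fintype.card K : ℝ) - 3 - 7 * Real.sqrt (Fintype.card K) ≤ N 1 B := by
  have hq' : (8 : ℝ) ≤ Fintype.card K := by exact_mod_cast hq
  set q : ℝ := (Fintype.card K : ℝ) with hqd
  set x : ℝ := N 1 B - (q - r (1 : K)) with hx
  have h3 := N_le_V hB
  have h4 := V_one_le (K := K)
  have h5 := sum_V_le h2
  rw [← hqd] at h3 h4 h5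
  have hq1 : 0 < q - 1 := by linarith
  have h6 : (q - 1) ^ 2 * x ^ 2 ≤ (q - 1) ^ 2 * (8 * (6 * q + 1)) := by
    calc (q - 1) ^ 2 * x ^ 2 = (q - 1) * ((q - 1) * x ^ 2) := by ring
      _ ≤ (q - 1) * (4 * V (1 : K)) := mul_le_mul_of_nonneg_left h3 hq1.le
      _ = 4 * ((q - 1) * V (1 : K)) := by ring
      _ ≤ 4 * (2 * ∑ k : K, V k) := by linarith
      _ ≤ 4 * (2 * ((q - 1) ^ 2 * (6 * q + 1))) := by linarith
      _ = _ := by ring
  have h7 : x ^ 2 ≤ 8 * (6 * q + 1) := le_of_mul_le_mul_left h6 (by positivity)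
  have h8 : x ^ 2 ≤ (7 * Real.sqrt q) ^ 2 := by
    rw [mul_pow, Real.sq_sqrt (by linarith)]
    linarith
  have h9 : |x| ≤ 7 * Real.sqrt q := abs_le_of_sq_le_sq h8 (by positivity)
  have h10 := (abs_le.1 h9).1
  have h11 := r_one_le (K := K)
  linarith

theorem N_eq (B : K) (hB : B ≠ 0) :
    N 1 B = (({x : K × K | x.1 * x.2 * (x.1 ^ 2 - x.2 ^ 2) = B}.ncard : ℕ) : ℝ) := by
  have h1 : N 1 B = (((univ : Finset (K × K)).filter
      fun y => y.2 ≠ 0 ∧ g 1 y.1 y.2 = B).card : ℝ) := by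
    unfold N
    rw [← Finset.sum_boole, Fintype.sum_prod_type]
  rw [h1]
  congr 1
  rw [← Set.ncard_coe_finset]
  refine Set.ncard_congr (fun y _ => (y.1 * y.2, y.2)) ?_ ?_ ?_
  · intro y hy
    rw [Finset.mem_coe, Finset.mem_filter] at hy
    obtain ⟨_, _, h3⟩ := hy
    show y.1 * y.2 * y.2 * ((y.1 * y.2) ^ 2 - y.2 ^ 2) = B
    rw [← h3]
    unfold g
    ring
  · intro y z hy hz h
    rw [Finset.mem_coe, Finset.mem_filter] at hy hz
    have h4 : y.2 = z.2 := (Prod.ext_iff.1 h).2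
    have h5 : y.1 * y.2 = z.1 * z.2 := (Prod.ext_iff.1 h).1
    rw [← h4] at h5
    exact Prod.ext (mul_right_cancel₀ hy.2.1 h5) h4
  · intro x hx
    have hx' : x.1 * x.2 * (x.1 ^ 2 - x.2 ^ 2) = B := hx
    have h2 : x.2 ≠ 0 := by
      intro h
      apply hB
      rw [← hx', h]
      ring
    refine ⟨(x.1 / x.2, x.2), ?_, ?_⟩
    · rw [Finset.mem_coe, Finset.mem_filter]
      refine ⟨mem_univ _, h2, ?_⟩
      rw [← hx']
      unfold g
      field_simp
    · exact Prod.ext (div_mul_cancel₀ _ h2) rfl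

end

/-- **Task CURVE.** -/
theorem curve : Pool.Agent.Y675.LN.S_CURVE := by
  intro p hp B hB
  have : Fact p.Prime := ⟨hp⟩
  rcases Nat.lt_or_ge p 8 with h | h
  · have h1 : (p : ℝ) - 3 - 7 * Real.sqrt p ≤ 0 := by
      have h2 : (1 : ℝ) ≤ p := by exact_mod_cast hp.one_lt.le
      have h3 : (p : ℝ) ≤ 7 := by exact_mod_cast (by omega : p ≤ 7)
      have h4 : (1 : ℝ) ≤ Real.sqrt p := Real.one_le_sqrt.2 h2
      linarith
    exact h1.trans (Nat.cast_nonneg _)
  · have h2 : (2 : ZMod p) ≠ 0 := by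
      intro h3
      have h4 : ((2 : ℕ) : ZMod p) = 0 := by exact_mod_cast h3
      rw [ZMod.natCast_eq_zero_iff] at h4
      have := Nat.le_of_dvd (by norm_num) h4
      omega
    have h5 := N_lower h2 hB (by rw [ZMod.card]; exact h)
    rw [N_eq B hB, ZMod.card] at h5
    exact h5

end Pool.Agent.Y333.LN
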